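import Mathlib
import Pool.Agent.Lib.MP_3e2d90_pr.Main

/-!
# Poisson line Cox percolation: `0 < λ_c(γ) < ∞`

The model is defined in `Pool/Agent/Lib/MP_3e2d90_pr/Model.lean`.

Small `λ`: multiscale recursion `L_{k+1} = L_k ^ 3`.  A level-`(k+1)` node is bad if each of 85
circles around it carries a bad level-`k` node.  The probability that a node is bad is bounded
uniformly in a finite list `D` of additional deterministic lines by `x_k ^ (-(81 - |D|))`,
`L_k = x_k ^ 5`: given `D` one uses four circles to which no line of `D` is nearly tangent, so that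
only `O(1)` nodes of these circles are near the lines of `D`; the number of random lines near two
of the four children is dominated by a Poisson variable with mean `O(1 / L_k)`, and they are added
to `D`.  Large `λ`: the same recursion for boxes without covered nearly horizontal or nearly
vertical line; common lines are removed.  Planar duality on `ℤ²` then gives an infinite cluster of
good boxes.
-/

open MeasureTheory
open scoped NNReal ENNReal

namespace Pool.Agent.Results.MP_3e2d90_pr.OccupiedTransition

open Lib.MP_3e2d90_pr

/-- For every line intensity `γ > 0` the threshold `λ_c(γ)` of the occupied set is positive and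
finite.  Moreover, for all sufficiently small `λ` the occupied set almost surely does not
percolate, and for all sufficiently large `λ` it almost surely percolates. -/
theorem result (γ : ℝ≥0) (hγ : 0 < γ) :
    (0 < lambdaC γ ∧ lambdaC γ < ∞) ∧
    (∃ l₀ : ℝ≥0, 0 < l₀ ∧ ∀ l ≤ l₀, ∀ᵐ w ∂(coxLaw γ l), ¬ Percolates (occupied w)) ∧
    (∃ l₁ : ℝ≥0, ∀ l ≥ l₁, ∀ᵐ w ∂(coxLaw γ l), Percolates (occupied w)) := by
  obtain ⟨l₀, hl₀, H0⟩ := main_small γ
  obtain ⟨l₁, H1⟩ := main_large hγ
  exact ⟨(thresholds hγ).1, ⟨l₀, hl₀, fun l hl => (H0 l hl).1⟩, ⟨l₁, fun l hl => (H1 l hl).1⟩⟩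

end Pool.Agent.Results.MP_3e2d90_pr.OccupiedTransition
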