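import Mathlib
import Pool.Agent.Lib.MP_3e2d90_pr.Main

/-!
# Poisson line Cox percolation: `0 < λ_c^V(γ) < ∞`

The model is defined in `Pool/Agent/Lib/MP_3e2d90_pr/Model.lean`; for the proof see the
description in `OccupiedTransition.lean`.  Small `λ`: bad nodes are so rare that planar duality on
`ℤ²` gives an infinite cluster of boxes without points nearby.  Large `λ`: an unbounded connected
vacant set would produce bad nodes on all scales, since four neighbouring good boxes contain a
closed frame of occupied segments.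
-/

open MeasureTheory
open scoped NNReal ENNReal

namespace Pool.Agent.Results.MP_3e2d90_pr.VacantTransition

open Lib.MP_3e2d90_pr

/-- For every line intensity `γ > 0` the threshold `λ_c^V(γ)` of the vacant set is positive and
finite.  Moreover, for all sufficiently small `λ` the vacant set almost surely percolates, and for
all sufficiently large `λ` it almost surely does not percolate. -/
theorem result (γ : ℝ≥0) (hγ : 0 < γ) :
    (0 < lambdaCV γ ∧ lambdaCV γ < ∞) ∧
    (∃ l₀ : ℝ≥0, 0 < l₀ ∧ ∀ l ≤ l₀, ∀ᵐ w ∂(coxLaw γ l), Percolates (vacant w)) ∧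
    (∃ l₁ : ℝ≥0, ∀ l ≥ l₁, ∀ᵐ w ∂(coxLaw γ l), ¬ Percolates (vacant w)) := by
  obtain ⟨l₀, hl₀, H0⟩ := main_small γ
  obtain ⟨l₁, H1⟩ := main_large hγ
  exact ⟨(thresholds hγ).2, ⟨l₀, hl₀, fun l hl => (H0 l hl).2⟩, ⟨l₁, fun l hl => (H1 l hl).2⟩⟩

end Pool.Agent.Results.MP_3e2d90_pr.VacantTransition
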